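import Pool.Agent.P.MP_85ac4c_co.Main
import Pool.Agent.P.MP_85ac4c_co.SixB

namespace Pool.Agent.Results.MP_85ac4c_co.ExactlySix

open Pool.Agent.P.MP_85ac4c_co

/-- The least `k` such that a flexible 2-chain can interlock with an open flexible `k`-chain
is six. -/
theorem result : IsLeast {k : ℕ | 1 ≤ k ∧
    ∃ (p : Fin 3 → E3) (v : Fin (k + 1) → E3), Admissible p v ∧ ¬ Separable p v} 6 :=
  ⟨⟨by norm_num, Six.p0, Six.v0, Six.adm, Six.locked⟩, fun k ⟨h1, p, v, h, hn⟩ =>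
    not_lt.mp fun h5 => hn (upto k h1 (by omega) p v h)⟩

end Pool.Agent.Results.MP_85ac4c_co.ExactlySix
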